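import Mathlib

/-!
# Winning strategies in the strong countable fan tightness game survive every forcing

For a point `y` of a topological space `Y` we consider the strong countable fan tightness game
at `y`: in round `n` player I chooses `A n ⊆ Y` with `y ∈ closure (A n)`, then player II chooses
a point of `A n`; player II wins if `y` is in the closure of the set of the chosen points.

We show: if player II has a winning strategy at `y` in the ground model, then for every
preordered set of conditions `P`, every condition `p : P` forces that player II has a winning
strategy at `y` in the space `Y` with the topology generated by the ground model topology.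
In particular this holds for `Y = C_p(X)` and for every poset which is strongly proper for
stationarily many models.

The generic extension is handled through names.
* A subset of the ground model set `Z` in `V[G]` has a (nice) name which is a set of pairs
  `(z, s)` with `z : Z` and `s : P`; its value at `G` is `{z | ∃ s ∈ G, (z, s) is in the name}`.
* A sequence in `V[G]` of subsets of `Y` is given by a sequence (in `V`) of such names.
* A function in `V[G]` from finite sequences of subsets of `Y` to `Y` is given by a function (in
  `V`) from finite sequences of names to names, which is forced to give singletons and to respect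
  equality.
* Forcing of compound sentences is defined by the usual clauses.
-/

set_option autoImplicit false

namespace Pool.Agent.Lib.MP_abf503_lc

universe u v w

/-! ## The forcing relation -/

section ForcingRelation

variable {P : Type u} [Preorder P]

/-- A sentence of the forcing language over the set of conditions `P`, given as the predicate
`p forces the sentence`.  Stronger conditions are smaller. -/
abbrev Sentence (P : Type u) := P → Prop

/-- `p` forces `not φ` iff no `q ≤ p` forces `φ`. -/
def fNot (φ : Sentence P) : Sentence P := fun p => ∀ q ≤ p, ¬ φ q

/-- `p` forces `φ and ψ` iff it forces both. -/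
def fAnd (φ ψ : Sentence P) : Sentence P := fun p => φ p ∧ ψ p

/-- `p` forces `φ implies ψ` iff every `q ≤ p` forcing `φ` forces `ψ`. -/
def fImp (φ ψ : Sentence P) : Sentence P := fun p => ∀ q ≤ p, φ q → ψ q

/-- `p` forces `for all i, φ i` iff it forces each `φ i`. -/
def fAll {ι : Sort w} (φ : ι → Sentence P) : Sentence P := fun p => ∀ i, φ i p

/-- `p` forces `there is i with φ i` iff the conditions that force some `φ i` are dense
below `p`. -/
def fEx {ι : Sort w} (φ : ι → Sentence P) : Sentence P :=
  fun p => ∀ q ≤ p, ∃ r ≤ q, ∃ i, φ i r

/-- Nice `P`-names for subsets of the ground model set `Z`: sets of pairs `(z, s)`. -/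
abbrev SetName (P : Type u) (Z : Type v) := Set (Z × P)

/-- `p` forces `z ∈ A` iff the conditions lying below some `s` with `(z, s) ∈ A` are dense
below `p`. -/
def fMem {Z : Type v} (z : Z) (A : SetName P Z) : Sentence P :=
  fun p => ∀ q ≤ p, ∃ r ≤ q, ∃ s : P, (z, s) ∈ A ∧ r ≤ s

/-- The sentence `A = B` for names of subsets of `Z`. -/
def fEq {Z : Type v} (A B : SetName P Z) : Sentence P :=
  fAll fun z : Z => fAnd (fImp (fMem z A) (fMem z B)) (fImp (fMem z B) (fMem z A))

/-- The sentence `L = L'` for finite sequences of names of subsets of `Z`. -/
def fEqList {Z : Type v} (L L' : List (SetName P Z)) : Sentence P :=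
  fun p => List.Forall₂ (fun A B => fEq A B p) L L'

end ForcingRelation

/-! ## The game in the ground model -/

/-- The list `[A 0, ..., A (n-1)]`. -/
def hist {α : Type w} (A : ℕ → α) (n : ℕ) : List α := (List.range n).map A

/-- Player II has a winning strategy `S` in the strong countable fan tightness game at the
point `y` of the space `Y`: the answer to the moves `A 0, ..., A n` is `S [A 0, ..., A n]`. -/
def IIWins (Y : Type v) [TopologicalSpace Y] (y : Y) : Prop :=
  ∃ S : List (Set Y) → Y, ∀ A : ℕ → Set Y, (∀ n, y ∈ closure (A n)) →
    (∀ n, S (hist A (n + 1)) ∈ A n) ∧ y ∈ closure {z | ∃ n, z = S (hist A (n + 1))}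

/-! ## The game in the forcing extension -/

section ForcedGame

variable {P : Type u} [Preorder P] {Y : Type v} [TopologicalSpace Y]

/-- The sentence `U is open in the topology on Y generated by the ground model open sets`: each
element of `U` has a ground model open neighbourhood contained in `U`. -/
def fOpen (U : SetName P Y) : Sentence P :=
  fAll fun z : Y => fImp (fMem z U)
    (fEx fun O : {O : Set Y // IsOpen O ∧ z ∈ O} => fAll fun w : {w : Y // w ∈ O.1} =>
      fMem w.1 U)

/-- The sentence `y is in the closure of A`, in the topology on `Y` generated by the ground model
open sets: every open set containing `y` meets `A`. -/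
def fClosure (y : Y) (A : SetName P Y) : Sentence P :=
  fAll fun U : SetName P Y => fImp (fAnd (fOpen U) (fMem y U))
    (fEx fun z : Y => fAnd (fMem z U) (fMem z A))

/-- The sentence `S is a function from finite sequences of subsets of Y to Y`: each value is a
singleton, and the value depends only on the sequence of subsets, not on the names. -/
def fIsStrategy (S : List (SetName P Y) → SetName P Y) : Sentence P :=
  fAnd
    (fAll fun L : List (SetName P Y) =>
      fAnd (fEx fun z : Y => fMem z (S L))
        (fAll fun z : Y => fAll fun z' : {z' : Y // z' ≠ z} =>
          fNot (fAnd (fMem z (S L)) (fMem z'.1 (S L)))))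
    (fAll fun L : List (SetName P Y) => fAll fun L' : List (SetName P Y) =>
      fImp (fEqList L L') (fEq (S L) (S L')))

/-- The name of the set of the answers of `S` to the moves `A 0, A 1, ...`. -/
def answers (S : List (SetName P Y) → SetName P Y) (A : ℕ → SetName P Y) : SetName P Y :=
  {x | ∃ n, x ∈ S (hist A (n + 1))}

/-- The sentence `S wins the game at y`: whenever `y` is in the closure of all the moves `A n`,
the `n`-th answer is in `A n` and `y` is in the closure of the set of answers. -/
def fWinning (y : Y) (S : List (SetName P Y) → SetName P Y) : Sentence P :=
  fAll fun A : ℕ → SetName P Y => fImp (fAll fun n : ℕ => fClosure y (A n))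
    (fAnd (fAll fun n : ℕ => fEx fun z : Y => fAnd (fMem z (S (hist A (n + 1)))) (fMem z (A n)))
      (fClosure y (answers S A)))

variable (P) in
/-- The sentence `player II has a winning strategy in the strong countable fan tightness game at
the point y of Y with the topology generated by the ground model open sets`. -/
def fIIWins (y : Y) : Sentence P :=
  fEx fun S : List (SetName P Y) → SetName P Y => fAnd (fIsStrategy S) (fWinning y S)

end ForcedGame

end Pool.Agent.Lib.MP_abf503_lc
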