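import Pool.Agent.Lib.MP_abf503_lc.Defs

/-!
# Proof that the winning strategies of player II survive every forcing
-/

set_option autoImplicit false

namespace Pool.Agent.Lib.MP_abf503_lc

universe u v w

/-! ## Basic facts on the forcing relation -/

section Basic

variable {P : Type u} [Preorder P]

theorem fMem_mono {Z : Type v} {z : Z} {A : SetName P Z} {p q : P} (h : fMem z A p)
    (hq : q ≤ p) : fMem z A q := fun r hr => h r (hr.trans hq)

theorem fMem_of_mem {Z : Type v} {z : Z} {A : SetName P Z} {p : P} (h : (z, p) ∈ A) :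
    fMem z A p := fun q hq => ⟨q, le_rfl, p, h, hq⟩

theorem fNot_mono {φ : Sentence P} {p q : P} (h : fNot φ p) (hq : q ≤ p) : fNot φ q :=
  fun r hr => h r (hr.trans hq)

theorem fEq_mem {Z : Type v} {A B : SetName P Z} {p : P} (h : fEq A B p) {q : P} (hq : q ≤ p)
    (z : Z) : fMem z A q ↔ fMem z B q :=
  ⟨fun hz => (h z).1 q hq hz, fun hz => (h z).2 q hq hz⟩

end Basic

/-! ## The dual strategy in the ground model -/

section Dual

variable {Y : Type v} [TopologicalSpace Y]

theorem hist_succ {α : Type w} (A : ℕ → α) (n : ℕ) : hist A (n + 1) = hist A n ++ [A n] := by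
  simp [hist, List.range_succ]

theorem hist_reverse_succ {α : Type w} (A : ℕ → α) (n : ℕ) :
    (hist A (n + 1)).reverse = A n :: (hist A n).reverse := by
  simp [hist_succ]

theorem length_hist {α : Type w} (A : ℕ → α) (n : ℕ) : (hist A n).length = n := by
  simp [hist]

/-- The sequence `L 0, ..., L (k-1), A, A, A, ...`. -/
def extend (L : List (Set Y)) (A : Set Y) (n : ℕ) : Set Y := L.getD n A

omit [TopologicalSpace Y] in
theorem hist_extend (L : List (Set Y)) (A : Set Y) : hist (extend L A) L.length = L := by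
  apply List.ext_getElem
  · simp [length_hist]
  · intro i h1 h2
    simp [hist, extend, h2]

/-- From a winning strategy of II in the game, we get for each legal position a neighbourhood all
of whose points are possible answers. -/
theorem exists_nbhd {y : Y} {S : List (Set Y) → Y}
    (hS : ∀ A : ℕ → Set Y, (∀ n, y ∈ closure (A n)) → (∀ n, S (hist A (n + 1)) ∈ A n))
    (L : List (Set Y)) (hL : ∀ A ∈ L, y ∈ closure A) :
    ∃ W : Set Y, IsOpen W ∧ y ∈ W ∧ ∀ z ∈ W, ∃ A : Set Y, y ∈ closure A ∧ S (L ++ [A]) = z := by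
  classical
  by_contra hcon
  push Not at hcon
  choose f hf1 hf2 using hcon
  set A : Set Y := {z | ∃ (W : Set Y) (hW : IsOpen W) (hy : y ∈ W), z = f W hW hy} with hA
  have hyA : y ∈ closure A := by
    rw [mem_closure_iff]
    intro W hW hyW
    exact ⟨f W hW hyW, hf1 W hW hyW, W, hW, hyW, rfl⟩
  have hleg : ∀ n, y ∈ closure (extend L A n) := by
    intro n
    unfold extend
    rcases lt_or_ge n L.length with h | h
    · rw [List.getD_eq_getElem _ _ h]
      exact hL _ (List.getElem_mem h)
    · rw [List.getD_eq_default _ _ h]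
      exact hyA
  have h1 := hS (extend L A) hleg L.length
  rw [hist_succ, hist_extend] at h1
  have h2 : extend L A L.length = A := by simp [extend]
  rw [h2] at h1
  obtain ⟨W, hW, hyW, hz⟩ := h1
  exact hf2 W hW hyW A hyA hz

open Classical in
/-- A move of I which is answered by `z`, if there is one. -/
noncomputable def pick (y : Y) (S : List (Set Y) → Y) (L : List (Set Y)) (z : Y) : Set Y :=
  if h : ∃ A : Set Y, y ∈ closure A ∧ S (L ++ [A]) = z then h.choose else Set.univ

theorem mem_closure_pick (y : Y) (S : List (Set Y) → Y) (L : List (Set Y)) (z : Y) :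
    y ∈ closure (pick y S L z) := by
  unfold pick
  split_ifs with h
  · exact h.choose_spec.1
  · simp

/-- Moves of I that are answered by the given points (listed with the most recent first). -/
noncomputable def moves (y : Y) (S : List (Set Y) → Y) : List Y → List (Set Y)
  | [] => []
  | z :: l => pick y S (moves y S l).reverse z :: moves y S l

theorem moves_legal (y : Y) (S : List (Set Y) → Y) (l : List Y) :
    ∀ A ∈ moves y S l, y ∈ closure A := by
  induction l with
  | nil => simp [moves]
  | cons z l ih =>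
    intro A hA
    rw [moves, List.mem_cons] at hA
    rcases hA with rfl | hA
    · exact mem_closure_pick _ _ _ _
    · exact ih A hA

/-- **Duality.** If player II has a winning strategy at `y`, then there is a function `W` which
assigns to each finite sequence of points (most recent first) an open neighbourhood of `y`, such
that `y` is in the closure of each sequence of points whose `n`-th member belongs to the
neighbourhood assigned to the previous ones. -/
theorem exists_dual {y : Y} (h : IIWins Y y) :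
    ∃ W : List Y → Set Y, (∀ l, IsOpen (W l)) ∧ (∀ l, y ∈ W l) ∧
      ∀ f : ℕ → Y, (∀ n, f n ∈ W (hist f n).reverse) → y ∈ closure (Set.range f) := by
  obtain ⟨S, hS⟩ := h
  have key := fun l : List Y => exists_nbhd (y := y) (S := S) (fun A hA => (hS A hA).1)
    (moves y S l).reverse (fun A hA => moves_legal y S l A (List.mem_reverse.1 hA))
  choose W hW1 hW2 hW3 using key
  refine ⟨W, hW1, hW2, fun f hf => ?_⟩
  set A : ℕ → Set Y := fun n => pick y S (moves y S (hist f n).reverse).reverse (f n) with hA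
  have hm : ∀ n, moves y S (hist f n).reverse = (hist A n).reverse := by
    intro n
    induction n with
    | zero => simp [hist, moves]
    | succ n ih =>
      rw [hist_reverse_succ, hist_reverse_succ, moves, ← ih]
  have hleg : ∀ n, y ∈ closure (A n) := fun n => mem_closure_pick _ _ _ _
  have hans : ∀ n, S (hist A (n + 1)) = f n := by
    intro n
    have h1 := hW3 _ (f n) (hf n)
    have h2 : S ((moves y S (hist f n).reverse).reverse ++ [A n]) = f n := by
      have : A n = h1.choose := by
        simp only [hA, pick]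
        rw [dif_pos h1]
      rw [this]
      exact h1.choose_spec.2
    rw [hm n, List.reverse_reverse] at h2
    rw [hist_succ]
    exact h2
  have h3 := (hS A hleg).2
  refine closure_mono ?_ h3
  rintro z ⟨n, rfl⟩
  exact ⟨n, (hans n).symm⟩

end Dual

/-! ## The strategy in the forcing extension -/

section Strategy

variable {P : Type u} [Preorder P] {Y : Type v} [TopologicalSpace Y]

/-- `p` decides that `z` is the answer to the move `A` when the previous answers are `l` (most
recent first): `z` is the least element of `A ∩ W l` in the ground model well-order `lt`, and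
it is `y` if this set is empty. -/
def Decides (lt : Y → Y → Prop) (W : List Y → Set Y) (y : Y) (p : P) (A : SetName P Y)
    (l : List Y) (z : Y) : Prop :=
  (z ∈ W l ∧ fMem z A p ∧ ∀ z', lt z' z → z' ∈ W l → fNot (fMem z' A) p) ∨
    (z = y ∧ ∀ z' ∈ W l, fNot (fMem z' A) p)

/-- `p` decides that the answers to the moves `L` are `l` (both with the most recent first). -/
def DecidesList (lt : Y → Y → Prop) (W : List Y → Set Y) (y : Y) (p : P) :
    List (SetName P Y) → List Y → Prop
  | [], [] => True
  | A :: L, z :: l => DecidesList lt W y p L l ∧ Decides lt W y p A l z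
  | [], _ :: _ => False
  | _ :: _, [] => False

/-- The name of the strategy. -/
def strat (lt : Y → Y → Prop) (W : List Y → Set Y) (y : Y) (L : List (SetName P Y)) :
    SetName P Y :=
  {x | ∃ l : List Y, DecidesList lt W y x.2 L.reverse l ∧ l.headD y = x.1}

variable {lt : Y → Y → Prop} {W : List Y → Set Y} {y : Y}

omit [TopologicalSpace Y] in
theorem Decides.mono {p q : P} {A : SetName P Y} {l : List Y} {z : Y}
    (h : Decides lt W y p A l z) (hq : q ≤ p) : Decides lt W y q A l z := by
  rcases h with ⟨h1, h2, h3⟩ | ⟨h1, h2⟩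
  · exact Or.inl ⟨h1, fMem_mono h2 hq, fun z' hz' hz'' => fNot_mono (h3 z' hz' hz'') hq⟩
  · exact Or.inr ⟨h1, fun z' hz' => fNot_mono (h2 z' hz') hq⟩

omit [TopologicalSpace Y] in
theorem DecidesList.mono {p q : P} (hq : q ≤ p) : ∀ {L : List (SetName P Y)} {l : List Y},
    DecidesList lt W y p L l → DecidesList lt W y q L l
  | [], [], _ => trivial
  | _ :: _, _ :: _, h => ⟨h.1.mono hq, h.2.mono hq⟩
  | [], _ :: _, h => h.elim
  | _ :: _, [], h => h.elim

omit [TopologicalSpace Y] in
theorem Decides.unique [IsWellOrder Y lt] {p : P} {A : SetName P Y} {l : List Y} {z z' : Y}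
    (h : Decides lt W y p A l z) (h' : Decides lt W y p A l z') : z = z' := by
  rcases h with ⟨h1, h2, h3⟩ | ⟨h1, h2⟩
  · rcases h' with ⟨h1', h2', h3'⟩ | ⟨h1', h2'⟩
    · rcases trichotomous_of lt z z' with h | h | h
      · exact (h3' z h h1 p le_rfl h2).elim
      · exact h
      · exact (h3 z' h h1' p le_rfl h2').elim
    · exact (h2' z h1 p le_rfl h2).elim
  · rcases h' with ⟨h1', h2', h3'⟩ | ⟨h1', h2'⟩
    · exact (h2 z' h1' p le_rfl h2').elim
    · rw [h1, h1']

omit [TopologicalSpace Y] in
theorem DecidesList.unique [IsWellOrder Y lt] {p : P} : ∀ {L : List (SetName P Y)}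
    {l l' : List Y}, DecidesList lt W y p L l → DecidesList lt W y p L l' → l = l'
  | [], [], [], _, _ => rfl
  | [], _ :: _, _, h, _ => h.elim
  | [], _, _ :: _, _, h => h.elim
  | _ :: _, [], _, h, _ => h.elim
  | _ :: _, _, [], _, h => h.elim
  | _ :: _, _ :: _, _ :: _, h, h' => by
    obtain rfl := h.1.unique h'.1
    rw [h.2.unique h'.2]

omit [TopologicalSpace Y] in
theorem exists_decides [IsWellOrder Y lt] (p : P) (A : SetName P Y) (l : List Y) :
    ∃ q ≤ p, ∃ z, Decides lt W y q A l z := by
  classical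
  by_cases h : ∃ z, z ∈ W l ∧ ∃ q ≤ p, fMem z A q
  · have hwf : WellFounded lt := IsWellFounded.wf
    set z := hwf.min {z | z ∈ W l ∧ ∃ q ≤ p, fMem z A q} h with hz
    obtain ⟨hz1, q, hq, hz2⟩ : z ∈ {z | z ∈ W l ∧ ∃ q ≤ p, fMem z A q} := hwf.min_mem _ h
    refine ⟨q, hq, z, Or.inl ⟨hz1, hz2, fun z' hz' hz'' r hr hm => ?_⟩⟩
    exact hwf.not_lt_min {z | z ∈ W l ∧ ∃ q ≤ p, fMem z A q}
      (show z' ∈ {z | z ∈ W l ∧ ∃ q ≤ p, fMem z A q} from ⟨hz'', r, hr.trans hq, hm⟩) hz'
  · refine ⟨p, le_rfl, y, Or.inr ⟨rfl, fun z' hz' r hr hm => ?_⟩⟩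
    exact h ⟨z', hz', r, hr, hm⟩

omit [TopologicalSpace Y] in
theorem exists_decidesList [IsWellOrder Y lt] : ∀ (L : List (SetName P Y)) (p : P),
    ∃ q ≤ p, ∃ l, DecidesList lt W y q L l
  | [], p => ⟨p, le_rfl, [], trivial⟩
  | A :: L, p => by
    obtain ⟨q, hq, l, hl⟩ := exists_decidesList L p
    obtain ⟨r, hr, z, hz⟩ := exists_decides (lt := lt) (W := W) (y := y) q A l
    exact ⟨r, hr.trans hq, z :: l, hl.mono hr, hz⟩

omit [TopologicalSpace Y] in
theorem Decides.congr {p : P} {A B : SetName P Y} {l : List Y} {z : Y}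
    (h : Decides lt W y p A l z) (hAB : fEq A B p) : Decides lt W y p B l z := by
  rcases h with ⟨h1, h2, h3⟩ | ⟨h1, h2⟩
  · exact Or.inl ⟨h1, (fEq_mem hAB le_rfl z).1 h2, fun z' hz' hz'' q hq hm =>
      h3 z' hz' hz'' q hq ((fEq_mem hAB hq z').2 hm)⟩
  · exact Or.inr ⟨h1, fun z' hz' q hq hm => h2 z' hz' q hq ((fEq_mem hAB hq z').2 hm)⟩

omit [TopologicalSpace Y] in
theorem DecidesList.congr {p : P} : ∀ {L L' : List (SetName P Y)} {l : List Y},
    DecidesList lt W y p L l → List.Forall₂ (fun A B => fEq A B p) L L' →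
      DecidesList lt W y p L' l
  | [], [], _, h, _ => h
  | _ :: _, [], _, _, h => by simp at h
  | [], _ :: _, _, _, h => by simp at h
  | _ :: _, _ :: _, [], h, _ => h.elim
  | _ :: _, _ :: _, _ :: _, h, h' => by
    rw [List.forall₂_cons] at h'
    exact ⟨h.1.congr h'.2, h.2.congr h'.1⟩

end Strategy

/-! ## The main theorem -/

section Main

variable {P : Type u} [Preorder P] {Y : Type v} [TopologicalSpace Y]

theorem fEq_symm {Z : Type v} {A B : SetName P Z} {p : P} (h : fEq A B p) : fEq B A p :=
  fun z => ⟨(h z).2, (h z).1⟩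

theorem fEq_mono {Z : Type v} {A B : SetName P Z} {p q : P} (h : fEq A B p) (hq : q ≤ p) :
    fEq A B q :=
  fun z => ⟨fun r hr => (h z).1 r (hr.trans hq), fun r hr => (h z).2 r (hr.trans hq)⟩

/-- The name of a ground model set. -/
def check (O : Set Y) : SetName P Y := {x | x.1 ∈ O}

omit [TopologicalSpace Y] in
theorem fMem_check {O : Set Y} {z : Y} {p : P} : fMem z (check (P := P) O) p ↔ z ∈ O := by
  constructor
  · intro h
    obtain ⟨r, -, s, hs, -⟩ := h p le_rfl
    exact hs
  · intro h q _
    exact ⟨q, le_rfl, q, h, le_rfl⟩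

theorem fOpen_check {O : Set Y} (hO : IsOpen O) (p : P) : fOpen (check (P := P) O) p := by
  intro z q _ hz q' _
  rw [fMem_check] at hz
  exact ⟨q', le_rfl, ⟨O, hO, hz⟩, fun w => fMem_check.2 w.2⟩

/-- A forced closure point is forced to be close to the set, tested with ground model open
sets. -/
theorem fClosure_open {y : Y} {A : SetName P Y} {p : P} (h : fClosure y A p) {O : Set Y}
    (hO : IsOpen O) (hy : y ∈ O) {q : P} (hq : q ≤ p) : ∃ r ≤ q, ∃ z ∈ O, fMem z A r := by
  obtain ⟨r, hr, z, hz1, hz2⟩ := h (check O) q hq ⟨fOpen_check hO q, fMem_check.2 hy⟩ q le_rfl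
  exact ⟨r, hr, z, fMem_check.1 hz1, hz2⟩

omit [TopologicalSpace Y] in
theorem fIsStrategy_strat {lt : Y → Y → Prop} [IsWellOrder Y lt] (W : List Y → Set Y) (y : Y)
    (p : P) : fIsStrategy (strat lt W y) p := by
  constructor
  · intro L
    constructor
    · intro q _
      obtain ⟨r, hr, l, hl⟩ := exists_decidesList (lt := lt) (W := W) (y := y) L.reverse q
      exact ⟨r, hr, l.headD y, fMem_of_mem ⟨l, hl, rfl⟩⟩
    · rintro z ⟨z', hne⟩ q _ ⟨h1, h2⟩
      obtain ⟨r, hr, s, ⟨l, hl, hz⟩, hrs⟩ := h1 q le_rfl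
      obtain ⟨r', hr', s', ⟨l', hl', hz'⟩, hrs'⟩ := h2 r hr
      have e := (hl.mono (hr'.trans hrs)).unique (hl'.mono hrs')
      subst e
      exact hne (hz'.symm.trans hz)
  · intro L L' q _ hLL z
    have hLL' : List.Forall₂ (fun A B => fEq A B q) L L' := hLL
    constructor
    · intro r hr hz r' hr'
      obtain ⟨t, ht, s, ⟨l, hl, hz'⟩, hts⟩ := hz r' hr'
      refine ⟨t, ht, t, ⟨l, ?_, hz'⟩, le_rfl⟩
      have h1 := hl.mono hts
      refine h1.congr (List.Forall₂.imp ?_ (List.rel_reverse hLL'))
      intro A B hAB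
      exact fEq_mono hAB ((ht.trans hr').trans hr)
    · intro r hr hz r' hr'
      obtain ⟨t, ht, s, ⟨l, hl, hz'⟩, hts⟩ := hz r' hr'
      refine ⟨t, ht, t, ⟨l, ?_, hz'⟩, le_rfl⟩
      have h1 := hl.mono hts
      refine h1.congr (List.Forall₂.imp ?_ (List.rel_reverse hLL'.flip))
      intro A B hAB
      exact fEq_mono (fEq_symm hAB) ((ht.trans hr').trans hr)

theorem fWinning_strat {lt : Y → Y → Prop} [IsWellOrder Y lt] {W : List Y → Set Y} {y : Y}
    (hW1 : ∀ l, IsOpen (W l)) (hW2 : ∀ l, y ∈ W l)
    (hW3 : ∀ f : ℕ → Y, (∀ n, f n ∈ W (hist f n).reverse) → y ∈ closure (Set.range f))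
    (p : P) : fWinning y (strat lt W y) p := by
  intro A q _ hA
  -- below `q`, the answers are in `W` and are in the moves
  have key : ∀ (n : ℕ) (r : P), r ≤ q → ∀ (l : List Y) (z : Y), Decides lt W y r (A n) l z →
      z ∈ W l ∧ fMem z (A n) r := by
    rintro n r hr l z (⟨h1, h2, -⟩ | ⟨-, h2⟩)
    · exact ⟨h1, h2⟩
    · obtain ⟨r', hr', z', hz', hm⟩ := fClosure_open (hA n) (hW1 l) (hW2 l) hr
      exact (h2 z' hz' r' hr' hm).elim
  constructor
  · intro n r hr
    obtain ⟨t, ht, l, hl⟩ := exists_decidesList (lt := lt) (W := W) (y := y)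
      (hist A (n + 1)).reverse r
    rw [hist_reverse_succ] at hl
    match l, hl with
    | z :: l, hl =>
      refine ⟨t, ht, z, fMem_of_mem ⟨z :: l, ?_, rfl⟩, (key n t (ht.trans hr) l z hl.2).2⟩
      change DecidesList lt W y t (hist A (n + 1)).reverse (z :: l)
      rw [hist_reverse_succ]
      exact hl
  · intro U r hr hU r₀ hr₀
    by_contra hcon
    push Not at hcon
    obtain ⟨r₁, hr₁, ⟨O, hO, hyO⟩, hOU⟩ := hU.1 y r₀ hr₀ (fMem_mono hU.2 hr₀) r₀ le_rfl
    -- a descending sequence deciding the answers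
    have hq₁ : r₁ ≤ q := hr₁.trans (hr₀.trans hr)
    have step : ∀ (n : ℕ) (x : {x : P × List Y // x.1 ≤ r₁ ∧
        DecidesList lt W y x.1 (hist A n).reverse x.2}),
        ∃ x' : {x : P × List Y // x.1 ≤ r₁ ∧
          DecidesList lt W y x.1 (hist A (n + 1)).reverse x.2},
          ∃ z, x'.1.2 = z :: x.1.2 ∧ z ∈ W x.1.2 := by
      rintro n ⟨⟨s, l⟩, hs, hl⟩
      obtain ⟨t, ht, z, hz⟩ := exists_decides (lt := lt) (W := W) (y := y) s (A n) l
      refine ⟨⟨⟨t, z :: l⟩, ht.trans hs, ?_⟩, z, rfl, (key n t ?_ l z hz).1⟩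
      · rw [hist_reverse_succ]
        exact ⟨hl.mono ht, hz⟩
      · exact ht.trans (hs.trans hq₁)
    choose nxt hnxt using step
    let st : (n : ℕ) → {x : P × List Y // x.1 ≤ r₁ ∧
        DecidesList lt W y x.1 (hist A n).reverse x.2} := fun n =>
      Nat.rec ⟨⟨r₁, []⟩, le_rfl, by simp [hist, DecidesList]⟩ (fun n x => nxt n x) n
    have hst : ∀ n, ∃ z, (st (n + 1)).1.2 = z :: (st n).1.2 ∧ z ∈ W (st n).1.2 :=
      fun n => hnxt n (st n)
    choose f hf1 hf2 using hst
    have hlist : ∀ n, (st n).1.2 = (hist f n).reverse := by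
      intro n
      induction n with
      | zero => rfl
      | succ n ih => rw [hf1, ih, hist_reverse_succ]
    have hcl := hW3 f (fun n => by rw [← hlist n]; exact hf2 n)
    rw [mem_closure_iff] at hcl
    obtain ⟨z, hzO, n, hn⟩ := hcl O hO hyO
    -- the condition at stage `n + 1` forces that the answer is in `U`
    refine hcon (st (n + 1)).1.1 ((st (n + 1)).2.1.trans hr₁) z ⟨?_, ?_⟩
    · exact fMem_mono (hOU ⟨z, hzO⟩) (st (n + 1)).2.1
    · refine fMem_of_mem ⟨n, (st (n + 1)).1.2, (st (n + 1)).2.2, ?_⟩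
      rw [hf1 n]
      exact hn

end Main

/-- **Main theorem.**  Let `P` be any preordered set of conditions, `Y` any topological space and
`y` a point of `Y`.  If player II has a winning strategy in the strong countable fan tightness
game at `y`, then every condition `p` forces that player II has a winning strategy in the strong
countable fan tightness game at `y`, played on `Y` with the topology generated by the ground
model topology. -/
theorem main : ∀ (P : Type u) [Preorder P] (Y : Type v) [TopologicalSpace Y] (y : Y),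
    IIWins Y y → ∀ p : P, fIIWins P y p := by
  intro P _ Y _ y h p
  obtain ⟨W, hW1, hW2, hW3⟩ := exists_dual h
  intro q _
  exact ⟨q, le_rfl, strat WellOrderingRel W y, fIsStrategy_strat W y q,
    fWinning_strat hW1 hW2 hW3 q⟩

/-! ## The case of `C_p(X)`, and a sanity check -/

/-- The topology of pointwise convergence on the set `C(X, ℝ)` of continuous functions; with this
topology `C(X, ℝ)` is the space `C_p(X)`. -/
def cpTopology (X : Type v) [TopologicalSpace X] : TopologicalSpace C(X, ℝ) :=
  TopologicalSpace.induced (fun f : C(X, ℝ) => (f : X → ℝ)) inferInstance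

/-- The question as posed, for every forcing: if player II has a winning strategy at every point
of `C_p(X)`, then every condition forces that player II has a winning strategy at every point of
`C_p(X)` with the topology generated by its ground model topology. -/
theorem cp_case (P : Type u) [Preorder P] (X : Type v) [TopologicalSpace X]
    (h : ∀ f : C(X, ℝ), @IIWins C(X, ℝ) (cpTopology X) f) (p : P) (f : C(X, ℝ)) :
    @fIIWins P _ C(X, ℝ) (cpTopology X) f p :=
  @main P _ C(X, ℝ) (cpTopology X) f (h f) p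

theorem fMem_unit {Z : Type v} {z : Z} {A : SetName PUnit.{u+1} Z} {p : PUnit} :
    fMem z A p ↔ (z, PUnit.unit) ∈ A := by
  constructor
  · intro h
    obtain ⟨r, -, s, hs, -⟩ := h p le_rfl
    exact hs
  · intro h q _
    exact ⟨q, le_rfl, PUnit.unit, h, le_rfl⟩

theorem fClosure_unit {Y : Type v} [TopologicalSpace Y] {y : Y} {A : SetName PUnit.{u+1} Y}
    {p : PUnit} : fClosure y A p ↔ y ∈ closure {z | (z, PUnit.unit) ∈ A} := by
  rw [mem_closure_iff]
  constructor
  · intro h O hO hy
    obtain ⟨r, -, z, hz, hm⟩ := fClosure_open h hO hy (le_refl p)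
    exact ⟨z, hz, fMem_unit.1 hm⟩
  · intro h U q _ hU r _
    obtain ⟨r', -, ⟨O, hO, hyO⟩, hOU⟩ := hU.1 y q le_rfl hU.2 q le_rfl
    obtain ⟨z, hzO, hzA⟩ := h O hO hyO
    exact ⟨r, le_rfl, z, hOU ⟨z, hzO⟩, fMem_unit.2 hzA⟩

/-- Sanity check: for the trivial forcing the forced statement is the ground model statement. -/
theorem fIIWins_trivial {Y : Type v} [TopologicalSpace Y] (y : Y) (p : PUnit.{u+1}) :
    fIIWins PUnit.{u+1} y p ↔ IIWins Y y := by
  constructor
  · intro h
    obtain ⟨r, -, S, ⟨hS1, hS2⟩, hS3⟩ := h p le_rfl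
    have hex : ∀ L : List (Set Y), ∃ z, (z, PUnit.unit) ∈ S (L.map check) := by
      intro L
      obtain ⟨r', -, z, hz⟩ := (hS1 (L.map check)).1 r le_rfl
      exact ⟨z, fMem_unit.1 hz⟩
    choose S' hS' using hex
    have huniq : ∀ (L : List (Set Y)) (z : Y), (z, PUnit.unit) ∈ S (L.map check) → z = S' L := by
      intro L z hz
      by_contra hne
      exact (hS1 (L.map check)).2 (S' L) ⟨z, hne⟩ r le_rfl
        ⟨fMem_unit.2 (hS' L), fMem_unit.2 hz⟩
    have hhist : ∀ (A : ℕ → Set Y) (n : ℕ), (hist A n).map (check (P := PUnit.{u+1})) =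
        hist (fun k => check (A k)) n := by
      intro A n
      simp [hist]
    refine ⟨S', fun A hA => ?_⟩
    obtain ⟨h1, h2⟩ := hS3 (fun n => check (A n)) r le_rfl
      (fun n => fClosure_unit.2 (by simpa [check] using hA n))
    constructor
    · intro n
      obtain ⟨r', -, z, hz1, hz2⟩ := h1 n r le_rfl
      have hz3 := fMem_unit.1 hz1
      rw [← hhist] at hz3
      rw [← huniq _ z hz3]
      exact fMem_check.1 hz2
    · refine closure_mono ?_ (fClosure_unit.1 h2)
      rintro z ⟨n, hn⟩
      refine ⟨n, huniq _ z ?_⟩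
      rw [hhist]
      exact hn
  · intro h
    exact main PUnit Y y h p

end Pool.Agent.Lib.MP_abf503_lc
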